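import Mathlib

/-!
# The product of `1 + 1 / p` over at most `1242` primes `p ≥ 5` is less than `5`
-/

set_option autoImplicit false

open Finset

namespace Pool.Agent.LibAO61

/-- The primes below `100`. -/
def small : List ℕ := [2, 3, 5, 7, 11, 13, 17, 19, 23, 29, 31, 37, 41, 43, 47, 53, 59, 61, 67, 71,
  73, 79, 83, 89, 97]

/-- A test which all primes from `5` to `10140` pass. -/
def ok (n : ℕ) : Bool :=
  Nat.blt n 10141 && (Nat.ble 5 n && small.all fun d => Nat.beq n d || !(Nat.beq (n % d) 0))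

theorem ok_of_prime {p : ℕ} (hp : p.Prime) (h5 : 5 ≤ p) (hlt : p < 10141) : ok p = true := by
  unfold ok
  rw [Bool.and_eq_true, Bool.and_eq_true, List.all_eq_true]
  refine ⟨by simpa [Nat.blt_eq] using hlt, by simpa [Nat.ble_eq] using h5, fun d hd => ?_⟩
  rw [Bool.or_eq_true]
  by_cases h : p % d = 0
  · left
    have hd1 : d ≠ 1 := by
      rintro rfl
      exact absurd hd (by decide)
    rcases (Nat.dvd_prime hp).1 (Nat.dvd_of_mod_eq_zero h) with h1 | h1
    · exact absurd h1 hd1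
    · rw [h1]
      exact Nat.beq_refl p
  · right
    cases hh : Nat.beq (p % d) 0 with
    | false => rfl
    | true => exact absurd (Nat.eq_of_beq_eq_true hh) h

/-- Folding a function over an interval of length `2 ^ k`. -/
def fold (op : ℕ → ℕ → ℕ) (leaf : ℕ → ℕ) (k : ℕ) : ℕ → ℕ :=
  Nat.rec leaf (fun k ih a => op (ih a) (ih (a + 2 ^ k))) k

theorem fold_mul (leaf : ℕ → ℕ) (k : ℕ) : ∀ a, fold (fun x y => Nat.mul x y) leaf k a =
    ∏ n ∈ Finset.Ico a (a + 2 ^ k), leaf n := by
  induction k with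
  | zero => intro a; simp [fold]
  | succ k ih =>
    intro a
    have h : fold (fun x y => Nat.mul x y) leaf (k + 1) a =
        fold (fun x y => Nat.mul x y) leaf k a *
          fold (fun x y => Nat.mul x y) leaf k (a + 2 ^ k) := rfl
    rw [h, ih, ih, Finset.prod_Ico_consecutive _ (Nat.le_add_right _ _) (Nat.le_add_right _ _)]
    congr 2
    rw [pow_succ]
    omega

theorem fold_add (leaf : ℕ → ℕ) (k : ℕ) : ∀ a, fold (fun x y => Nat.add x y) leaf k a =
    ∑ n ∈ Finset.Ico a (a + 2 ^ k), leaf n := by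
  induction k with
  | zero => intro a; simp [fold]
  | succ k ih =>
    intro a
    have h : fold (fun x y => Nat.add x y) leaf (k + 1) a =
        fold (fun x y => Nat.add x y) leaf k a +
          fold (fun x y => Nat.add x y) leaf k (a + 2 ^ k) := rfl
    rw [h, ih, ih, Finset.sum_Ico_consecutive _ (Nat.le_add_right _ _) (Nat.le_add_right _ _)]
    congr 2
    rw [pow_succ]
    omega

theorem count_eq : fold (fun x y => Nat.add x y) (fun n => cond (ok n) 1 0) 14 0 = 1242 := by
  decide +kernel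

theorem prod_num_lt : Nat.blt (fold (fun x y => Nat.mul x y) (fun n => cond (ok n) (n + 1) 1) 14 0)
    (5 * fold (fun x y => Nat.mul x y) (fun n => cond (ok n) n 1) 14 0) = true := by
  decide +kernel

/-- The primes from `5` to `10140` (all the numbers which pass the test). -/
def big : Finset ℕ := (Finset.Ico 0 (0 + 2 ^ 14)).filter fun n => ok n = true

theorem card_big : big.card = 1242 := by
  rw [big, Finset.card_filter, ← count_eq, fold_add]
  refine Finset.sum_congr rfl fun n _ => ?_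
  cases ok n <;> simp

theorem cond_eq (b : Bool) (x : ℕ) : cond b x 1 = if b = true then x else 1 := by
  cases b <;> simp

theorem filter_lt (s : Finset ℕ) (f : ℕ → Bool)
    (h : Nat.blt (∏ n ∈ s, cond (f n) (n + 1) 1) (5 * ∏ n ∈ s, cond (f n) n 1) = true) :
    ∏ n ∈ s.filter (fun n => f n = true), (n + 1) <
      5 * ∏ n ∈ s.filter (fun n => f n = true), n := by
  rw [Nat.blt_eq] at h
  rw [Finset.prod_filter, Finset.prod_filter]
  have e1 : ∏ n ∈ s, cond (f n) (n + 1) 1 = ∏ n ∈ s, (if f n = true then n + 1 else 1) :=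
    Finset.prod_congr rfl fun n _ => cond_eq _ _
  have e2 : ∏ n ∈ s, cond (f n) n 1 = ∏ n ∈ s, (if f n = true then n else 1) :=
    Finset.prod_congr rfl fun n _ => cond_eq _ _
  rw [e1, e2] at h
  exact h

theorem prod_big_lt : ∏ n ∈ big, (n + 1) < 5 * ∏ n ∈ big, n := by
  have h := prod_num_lt
  rw [fold_mul, fold_mul] at h
  rw [big]
  generalize Finset.Ico 0 (0 + 2 ^ 14) = s at h ⊢
  exact filter_lt s ok h

theorem mem_big {n : ℕ} (h : n ∈ big) : 5 ≤ n ∧ n < 10141 := by
  rw [big, Finset.mem_filter] at h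
  have h2 := h.2
  unfold ok at h2
  rw [Bool.and_eq_true, Bool.and_eq_true] at h2
  exact ⟨Nat.le_of_ble_eq_true h2.2.1, Nat.le_of_ble_eq_true h2.1⟩

theorem mem_big_of_prime {p : ℕ} (hp : p.Prime) (h5 : 5 ≤ p) (hlt : p < 10141) : p ∈ big := by
  rw [big, Finset.mem_filter, Finset.mem_Ico]
  exact ⟨⟨Nat.zero_le _, lt_trans hlt (by norm_num)⟩, ok_of_prime hp h5 hlt⟩

theorem prod_lt_big {S : Finset ℕ} (hS : ∀ p ∈ S, p.Prime ∧ 5 ≤ p) (hc : S.card ≤ 1242) :
    ∏ p ∈ S, (p + 1) < 5 * ∏ p ∈ S, p := by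
  classical
  have hpos : ∀ p ∈ S, (0 : ℚ) < p := fun p hp => by exact_mod_cast (hS p hp).1.pos
  have hposb : ∀ p ∈ big, (0 : ℚ) < p := fun p hp => by
    have := (mem_big hp).1
    exact_mod_cast (by omega : 0 < p)
  have key : ∏ p ∈ S, (((p : ℚ) + 1) / p) < 5 := by
    have e1 : ∏ p ∈ S, (((p : ℚ) + 1) / p) =
        (∏ p ∈ S ∩ big, (((p : ℚ) + 1) / p)) * ∏ p ∈ S \ big, (((p : ℚ) + 1) / p) :=
      (Finset.prod_inter_mul_prod_sdiff S big _).symm
    have e2 : ∏ p ∈ big, (((p : ℚ) + 1) / p) =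
        (∏ p ∈ S ∩ big, (((p : ℚ) + 1) / p)) * ∏ p ∈ big \ S, (((p : ℚ) + 1) / p) := by
      rw [← Finset.prod_inter_mul_prod_sdiff big S, Finset.inter_comm]
    have a1 : ∏ p ∈ S \ big, (((p : ℚ) + 1) / p) ≤ (10142 / 10141 : ℚ) ^ (S \ big).card := by
      rw [← Finset.prod_const]
      refine Finset.prod_le_prod (fun p hp => ?_) fun p hp => ?_
      · positivity
      · rw [Finset.mem_sdiff] at hp
        have hge : 10141 ≤ p := by
          by_contra hlt
          exact hp.2 (mem_big_of_prime (hS p hp.1).1 (hS p hp.1).2 (not_le.1 hlt))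
        have hge' : (10141 : ℚ) ≤ p := by exact_mod_cast hge
        rw [div_le_div_iff₀ (by linarith) (by norm_num)]
        linarith
    have a2 : (10142 / 10141 : ℚ) ^ (S \ big).card ≤ (10142 / 10141 : ℚ) ^ (big \ S).card := by
      refine pow_le_pow_right₀ (by norm_num) ?_
      rw [Finset.card_sdiff_le_card_sdiff_iff, card_big]
      exact hc
    have a3 : (10142 / 10141 : ℚ) ^ (big \ S).card ≤ ∏ p ∈ big \ S, (((p : ℚ) + 1) / p) := by
      rw [← Finset.prod_const]
      refine Finset.prod_le_prod (fun p hp => by norm_num) fun p hp => ?_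
      have hp' := mem_big (Finset.mem_sdiff.1 hp).1
      have hb1 : (5 : ℚ) ≤ p := by exact_mod_cast hp'.1
      have hb2 : (p : ℚ) ≤ 10141 := by exact_mod_cast hp'.2.le
      rw [div_le_div_iff₀ (by norm_num) (by linarith)]
      linarith
    have hL : ∏ p ∈ big, (((p : ℚ) + 1) / p) < 5 := by
      rw [Finset.prod_div_distrib, div_lt_iff₀ (Finset.prod_pos hposb)]
      have h := prod_big_lt
      have h' : ((∏ p ∈ big, (p + 1) : ℕ) : ℚ) < ((5 * ∏ p ∈ big, p : ℕ) : ℚ) := Nat.cast_lt.2 h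
      push_cast at h'
      exact h'
    refine lt_of_le_of_lt ?_ hL
    rw [e1, e2]
    refine mul_le_mul_of_nonneg_left (a1.trans (a2.trans a3)) ?_
    exact Finset.prod_nonneg fun p _ => by positivity
  rw [Finset.prod_div_distrib, div_lt_iff₀ (Finset.prod_pos hpos)] at key
  have key' : ((∏ p ∈ S, (p + 1) : ℕ) : ℚ) < ((5 * ∏ p ∈ S, p : ℕ) : ℚ) := by
    push_cast
    exact key
  exact Nat.cast_lt.1 key'

end Pool.Agent.LibAO61
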