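import Mathlib

/-!
# Elements of average order: definitions
-/

set_option autoImplicit false

open Finset

namespace Pool.Agent.LibAO61

/-- The average order of the elements of a finite group. -/
noncomputable def avgOrder (G : Type*) [Group G] [Fintype G] : ℚ :=
  (∑ x : G, (orderOf x : ℚ)) / Fintype.card G

/-- For every `m` the solutions of `x ^ m = 1` in `G` are closed under multiplication
(so they form a subgroup); every commutative group has this property. -/
def PowerClosed (G : Type*) [Group G] : Prop :=
  ∀ (m : ℕ) (x y : G), x ^ m = 1 → y ^ m = 1 → (x * y) ^ m = 1

end Pool.Agent.LibAO61
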