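import Pool.Agent.LibAO61.Defs

/-!
# The inequality for power-closed groups (helper43)
-/

open Finset

namespace Pool.Agent.LibAO61

def solSub {G : Type*} [Group G] (h : PowerClosed G) (m : ℕ) : Subgroup G where
  carrier := {x | x ^ m = 1}
  mul_mem' := fun {x y} hx hy => h m x y hx hy
  one_mem' := one_pow m
  inv_mem' := fun {x} hx => by
    simp only [Set.mem_ofPred_eq, inv_pow, inv_eq_one] at *
    exact hx

lemma mem_solSub {G : Type*} [Group G] (h : PowerClosed G) (m : ℕ) (x : G) :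
    x ∈ solSub h m ↔ x ^ m = 1 := Iff.rfl

lemma pc_sub {G : Type*} [Group G] (h : PowerClosed G) (A : Subgroup G) :
    PowerClosed A := by
  intro m x y hx hy
  have hx' : (x : G) ^ m = 1 := by
    have := congrArg (fun z : A => (z : G)) hx
    simpa using this
  have hy' : (y : G) ^ m = 1 := by
    have := congrArg (fun z : A => (z : G)) hy
    simpa using this
  have := h m x y hx' hy'
  apply Subtype.ext
  simpa using this

/-- telescoping identity for the order of an element of `p`-power order -/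
lemma order_tele (p : ℕ) (i n : ℕ) (hin : i ≤ n) :
    (∑ j ∈ range n, if i ≤ j then ((p : ℚ) ^ (j + 1) - (p : ℚ) ^ j) else 0)
      = (p : ℚ) ^ n - (p : ℚ) ^ i := by
  induction n, hin using Nat.le_induction with
  | base =>
    rw [sub_self]
    apply Finset.sum_eq_zero
    intro j hj
    rw [if_neg]
    have := Finset.mem_range.1 hj
    omega
  | succ n hn ih =>
    rw [Finset.sum_range_succ, ih, if_pos hn]
    ring

lemma order_id {G : Type*} [Group G] {p n : ℕ} (hp : p.Prime) (x : G)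
    (hx : x ^ (p ^ n) = 1) :
    (orderOf x : ℚ) = (p : ℚ) ^ n -
      ∑ j ∈ range n, if orderOf x ∣ p ^ j then ((p : ℚ) ^ (j + 1) - (p : ℚ) ^ j) else 0 := by
  obtain ⟨i, hi, hxi⟩ := (Nat.dvd_prime_pow hp).1 (orderOf_dvd_of_pow_eq_one hx)
  have h1 : ∀ j, (orderOf x ∣ p ^ j) ↔ i ≤ j := by
    intro j
    rw [hxi]
    exact Nat.pow_dvd_pow_iff_le_right hp.one_lt
  have h2 : (∑ j ∈ range n, if orderOf x ∣ p ^ j then ((p : ℚ) ^ (j + 1) - (p : ℚ) ^ j) else 0)
      = ∑ j ∈ range n, if i ≤ j then ((p : ℚ) ^ (j + 1) - (p : ℚ) ^ j) else 0 := by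
    apply Finset.sum_congr rfl
    intro j _
    by_cases h : i ≤ j
    · rw [if_pos h, if_pos ((h1 j).2 h)]
    · rw [if_neg h, if_neg (fun h' => h ((h1 j).1 h'))]
  rw [h2, order_tele p i n hi, hxi]
  push_cast
  ring


lemma sol_step {G : Type*} [Group G] [Finite G] {p n : ℕ} (hp : p.Prime)
    (h : PowerClosed G) (he : Monoid.exponent G = p ^ n) (j : ℕ) (hj : j < n) :
    Nat.card (solSub h (p ^ j)) * p ≤ Nat.card (solSub h (p ^ (j + 1))) := by
  have := Fact.mk hp
  have hPG : IsPGroup p G := by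
    intro g
    refine ⟨n, ?_⟩
    rw [← he]
    exact Monoid.pow_exponent_eq_one g
  have hle : solSub h (p ^ j) ≤ solSub h (p ^ (j + 1)) := by
    intro x hx
    rw [mem_solSub] at *
    rw [pow_succ, pow_mul, hx, one_pow]
  have hne : solSub h (p ^ j) ≠ solSub h (p ^ (j + 1)) := by
    intro heq
    have hall : ∀ x : G, x ^ (p ^ (n - 1)) = 1 := by
      intro x
      have h1 : x ^ (p ^ (n - 1 - j)) ∈ solSub h (p ^ (j + 1)) := by
        rw [mem_solSub, ← pow_mul, ← pow_add]
        have : n - 1 - j + (j + 1) = n := by omega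
        rw [this, ← he]
        exact Monoid.pow_exponent_eq_one x
      rw [← heq, mem_solSub, ← pow_mul, ← pow_add] at h1
      have : n - 1 - j + j = n - 1 := by omega
      rwa [this] at h1
    have hd : Monoid.exponent G ∣ p ^ (n - 1) := Monoid.exponent_dvd_of_forall_pow_eq_one hall
    rw [he, Nat.pow_dvd_pow_iff_le_right hp.one_lt] at hd
    omega
  obtain ⟨a, ha⟩ := IsPGroup.exists_card_eq (hPG.to_subgroup (solSub h (p ^ j)))
  obtain ⟨b, hb⟩ := IsPGroup.exists_card_eq (hPG.to_subgroup (solSub h (p ^ (j + 1))))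
  have hdvd : Nat.card (solSub h (p ^ j)) ∣ Nat.card (solSub h (p ^ (j + 1))) :=
    Subgroup.card_dvd_of_le hle
  rw [ha, hb] at hdvd ⊢
  have hab : a ≤ b := (Nat.pow_dvd_pow_iff_le_right hp.one_lt).1 hdvd
  have hab' : a ≠ b := by
    intro hab'
    apply hne
    apply Subgroup.eq_of_le_of_card_ge hle
    rw [ha, hb, hab']
  rw [← pow_succ]
  exact Nat.pow_le_pow_right hp.pos (by omega)

lemma sol_card {G : Type*} [Group G] [Finite G] {p n : ℕ} (hp : p.Prime)
    (h : PowerClosed G) (he : Monoid.exponent G = p ^ n) (k : ℕ) (hk : k ≤ n) :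
    Nat.card (solSub h (p ^ (n - k))) * p ^ k ≤ Nat.card G := by
  induction k with
  | zero =>
    rw [pow_zero, mul_one]
    exact Nat.card_le_card_of_injective _ Subtype.val_injective
  | succ k ih =>
    have h1 := ih (by omega)
    have h2 := sol_step hp h he (n - (k + 1)) (by omega)
    have h3 : n - (k + 1) + 1 = n - k := by omega
    rw [h3] at h2
    calc Nat.card (solSub h (p ^ (n - (k + 1)))) * p ^ (k + 1)
        = (Nat.card (solSub h (p ^ (n - (k + 1)))) * p) * p ^ k := by ring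
      _ ≤ Nat.card (solSub h (p ^ (n - k))) * p ^ k := Nat.mul_le_mul_right _ h2
      _ ≤ Nat.card G := h1


lemma card_filter_sol {G : Type*} [Group G] [Fintype G] (h : PowerClosed G) (m : ℕ) :
    ((univ.filter fun x : G => orderOf x ∣ m).card : ℕ) = Nat.card (solSub h m) := by
  classical
  rw [Nat.card_eq_fintype_card, Fintype.card_subtype]
  congr 1
  ext x
  simp only [Finset.mem_filter, Finset.mem_univ, true_and, mem_solSub]
  exact orderOf_dvd_iff_pow_eq_one

lemma main_pp {G : Type*} [Group G] [Fintype G] {p n : ℕ} (hp : p.Prime)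
    (h : PowerClosed G) (he : Monoid.exponent G = p ^ n) :
    (Fintype.card G : ℚ) * (p : ℚ) ^ n * p < (∑ x : G, (orderOf x : ℚ)) * (p + 1) := by
  have hp0 : (0 : ℚ) < p := by exact_mod_cast hp.pos
  have hp1 : (1 : ℚ) < p := by exact_mod_cast hp.one_lt
  have hc : (0 : ℚ) < Fintype.card G := by
    exact_mod_cast Fintype.card_pos
  have h1 : (∑ x : G, (orderOf x : ℚ)) = (Fintype.card G : ℚ) * (p : ℚ) ^ n -
      ∑ j ∈ range n, ((p : ℚ) ^ (j + 1) - (p : ℚ) ^ j) * (Nat.card (solSub h (p ^ j)) : ℚ) := by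
    have h2 : ∀ x : G, (orderOf x : ℚ) = (p : ℚ) ^ n -
      ∑ j ∈ range n, if orderOf x ∣ p ^ j then ((p : ℚ) ^ (j + 1) - (p : ℚ) ^ j) else 0 := by
      intro x
      apply order_id hp
      rw [← he]
      exact Monoid.pow_exponent_eq_one x
    rw [Finset.sum_congr rfl (fun x _ => h2 x), Finset.sum_sub_distrib, Finset.sum_comm]
    congr 1
    · rw [Finset.sum_const, nsmul_eq_mul, Finset.card_univ]
    · apply Finset.sum_congr rfl
      intro j _
      rw [← Finset.sum_filter, Finset.sum_const, nsmul_eq_mul, card_filter_sol h, mul_comm]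
  have h3 : ∀ j ∈ range n, (p : ℚ) ^ n * (((p : ℚ) ^ (j + 1) - (p : ℚ) ^ j) *
      (Nat.card (solSub h (p ^ j)) : ℚ)) ≤
      (Fintype.card G : ℚ) * (((p : ℚ) - 1) * ((p : ℚ) ^ 2) ^ j) := by
    intro j hj
    have hj' := Finset.mem_range.1 hj
    have h4 := sol_card hp h he (n - j) (by omega)
    have h5 : n - (n - j) = j := by omega
    rw [h5, Nat.card_eq_fintype_card (α := G)] at h4
    have h6 : (Nat.card (solSub h (p ^ j)) : ℚ) * (p : ℚ) ^ (n - j) ≤ Fintype.card G := by
      exact_mod_cast h4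
    have h7 : (p : ℚ) ^ n = (p : ℚ) ^ j * (p : ℚ) ^ (n - j) := by
      rw [← pow_add]
      congr 1
      omega
    calc (p : ℚ) ^ n * (((p : ℚ) ^ (j + 1) - (p : ℚ) ^ j) * (Nat.card (solSub h (p ^ j)) : ℚ))
        = (((p : ℚ) - 1) * ((p : ℚ) ^ 2) ^ j) *
          ((Nat.card (solSub h (p ^ j)) : ℚ) * (p : ℚ) ^ (n - j)) := by
          rw [h7]
          ring
      _ ≤ (((p : ℚ) - 1) * ((p : ℚ) ^ 2) ^ j) * Fintype.card G := by
          apply mul_le_mul_of_nonneg_left h6
          have : (0 : ℚ) ≤ (p : ℚ) - 1 := by linarith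
          positivity
      _ = _ := by ring
  have h8 := Finset.sum_le_sum h3
  rw [← Finset.mul_sum, ← Finset.mul_sum, ← Finset.mul_sum] at h8
  have h9 : (((p : ℚ) ^ 2) - 1) * ∑ j ∈ range n, ((p : ℚ) ^ 2) ^ j = ((p : ℚ) ^ 2) ^ n - 1 := by
    have := geom_sum_mul ((p : ℚ) ^ 2) n
    linarith
  set S := ∑ j ∈ range n, ((p : ℚ) ^ (j + 1) - (p : ℚ) ^ j) * (Nat.card (solSub h (p ^ j)) : ℚ)
    with hS
  set Z := ∑ j ∈ range n, ((p : ℚ) ^ 2) ^ j with hZ
  set N := (Fintype.card G : ℚ) with hN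
  have hpn : (0 : ℚ) < (p : ℚ) ^ n := by positivity
  -- multiply by `p ^ n`
  have h10 : (p : ℚ) ^ n * ((p + 1) * S) ≤ N * (((p : ℚ) ^ 2) ^ n - 1) := by
    calc (p : ℚ) ^ n * ((p + 1) * S) = (p + 1) * ((p : ℚ) ^ n * S) := by ring
      _ ≤ (p + 1) * (N * (((p : ℚ) - 1) * Z)) := by
          apply mul_le_mul_of_nonneg_left h8
          linarith
      _ = N * ((((p : ℚ) ^ 2) - 1) * Z) := by ring
      _ = _ := by rw [h9]
  have h11 : (p : ℚ) ^ n * ((p + 1) * S) < (p : ℚ) ^ n * (N * (p : ℚ) ^ n) := by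
    have h12 : ((p : ℚ) ^ 2) ^ n = (p : ℚ) ^ n * (p : ℚ) ^ n := by
      rw [← pow_mul, ← pow_add]
      congr 1
      ring
    rw [h12] at h10
    nlinarith
  have h13 := lt_of_mul_lt_mul_left h11 hpn.le
  rw [h1]
  nlinarith


lemma comm_sol {G : Type*} [Group G] (h : PowerClosed G) {a b : ℕ}
    (hab : a.Coprime b) (x y : G) (hx : x ^ a = 1) (hy : y ^ b = 1) : Commute x y := by
  have hconj : ∀ (m : ℕ) (u v : G), v ^ m = 1 → (u * v * u⁻¹) ^ m = 1 := by
    intro m u v hv
    rw [conj_pow, hv]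
    simp
  have h1 : (x * y * x⁻¹ * y⁻¹) ^ a = 1 := by
    have : x * y * x⁻¹ * y⁻¹ = x * (y * x⁻¹ * y⁻¹) := by group
    rw [this]
    apply h a x _ hx
    apply hconj
    rw [inv_pow, hx, inv_one]
  have h2 : (x * y * x⁻¹ * y⁻¹) ^ b = 1 := by
    apply h b (x * y * x⁻¹) y⁻¹
    · exact hconj b x y hy
    · rw [inv_pow, hy, inv_one]
  have h3 : orderOf (x * y * x⁻¹ * y⁻¹) ∣ 1 := by
    have := Nat.dvd_gcd (orderOf_dvd_of_pow_eq_one h1) (orderOf_dvd_of_pow_eq_one h2)
    rwa [Nat.Coprime.gcd_eq_one hab] at this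
  have h4 : x * y * x⁻¹ * y⁻¹ = 1 := orderOf_eq_one_iff.1 (Nat.dvd_one.1 h3)
  have h5 : x * y = y * x := by
    have := mul_inv_eq_one.1 h4
    have h6 := mul_inv_eq_iff_eq_mul.1 this
    exact h6
  exact h5

lemma exists_crt {a b : ℕ} (hab : a.Coprime b) :
    ∃ e f : ℕ, e ≡ 1 [MOD a] ∧ e ≡ 0 [MOD b] ∧ f ≡ 0 [MOD a] ∧ f ≡ 1 [MOD b] := by
  obtain ⟨e, he1, he2⟩ := Nat.chineseRemainder hab 1 0
  obtain ⟨f, hf1, hf2⟩ := Nat.chineseRemainder hab 0 1
  exact ⟨e, f, he1, he2, hf1, hf2⟩

lemma pow_of_modEq {G : Type*} [Group G] {x : G} {m e f : ℕ} (hx : x ^ m = 1)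
    (h : e ≡ f [MOD m]) : x ^ e = x ^ f := by
  rw [pow_eq_pow_iff_modEq]
  exact h.of_dvd (orderOf_dvd_of_pow_eq_one hx)

/-- the decomposition of a power-closed group of exponent dividing `a * b` -/
noncomputable def decomp {G : Type*} [Group G] (h : PowerClosed G) {a b : ℕ}
    (hab : a.Coprime b) (hG : ∀ x : G, x ^ (a * b) = 1) :
    (solSub h a × solSub h b) ≃ G := by
  apply Equiv.ofBijective (fun z : solSub h a × solSub h b => (z.1 : G) * (z.2 : G))
  obtain ⟨e, f, he1, he2, hf1, hf2⟩ := exists_crt hab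
  constructor
  · rintro ⟨⟨x, hx⟩, ⟨y, hy⟩⟩ ⟨⟨x', hx'⟩, ⟨y', hy'⟩⟩ hz
    simp only at hz
    rw [mem_solSub] at hx hy hx' hy'
    have key : ∀ u v : G, u ^ a = 1 → v ^ b = 1 → (u * v) ^ e = u ∧ (u * v) ^ f = v := by
      intro u v hu hv
      have hc := comm_sol h hab u v hu hv
      constructor
      · rw [hc.mul_pow, pow_of_modEq hu he1, pow_of_modEq hv he2, pow_one, pow_zero, mul_one]
      · rw [hc.mul_pow, pow_of_modEq hu hf1, pow_of_modEq hv hf2, pow_one, pow_zero, one_mul]
    have k1 := key x y hx hy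
    have k2 := key x' y' hx' hy'
    rw [← hz] at k2
    have e1 : x = x' := k1.1.symm.trans k2.1
    have e2 : y = y' := k1.2.symm.trans k2.2
    subst e1
    subst e2
    rfl
  · intro x
    have hbe : b ∣ e := (Nat.modEq_zero_iff_dvd).1 he2
    have haf : a ∣ f := (Nat.modEq_zero_iff_dvd).1 hf1
    have m1 : x ^ e ∈ solSub h a := by
      rw [mem_solSub, ← pow_mul]
      obtain ⟨c, hc⟩ := hbe
      have : e * a = a * b * c := by rw [hc]; ring
      rw [this, pow_mul, hG, one_pow]
    have m2 : x ^ f ∈ solSub h b := by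
      rw [mem_solSub, ← pow_mul]
      obtain ⟨c, hc⟩ := haf
      have : f * b = a * b * c := by rw [hc]; ring
      rw [this, pow_mul, hG, one_pow]
    refine ⟨(⟨x ^ e, m1⟩, ⟨x ^ f, m2⟩), ?_⟩
    simp only
    rw [← pow_add]
    have h3 : e + f ≡ 1 [MOD a * b] := by
      rw [← Nat.modEq_and_modEq_iff_modEq_mul hab]
      constructor
      · have := he1.add hf1
        simpa using this
      · have := he2.add hf2
        simpa using this
    rw [pow_of_modEq (hG x) h3, pow_one]

lemma decomp_apply {G : Type*} [Group G] (h : PowerClosed G) {a b : ℕ}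
    (hab : a.Coprime b) (hG : ∀ x : G, x ^ (a * b) = 1) (z : solSub h a × solSub h b) :
    decomp h hab hG z = (z.1 : G) * (z.2 : G) := rfl

lemma psi_mul {G : Type*} [Group G] [Fintype G] (h : PowerClosed G) {a b : ℕ}
    (hab : a.Coprime b) (hG : ∀ x : G, x ^ (a * b) = 1)
    [Fintype (solSub h a)] [Fintype (solSub h b)] :
    (∑ x : G, (orderOf x : ℚ)) =
      (∑ x : solSub h a, (orderOf x : ℚ)) * (∑ x : solSub h b, (orderOf x : ℚ)) := by
  rw [← Equiv.sum_comp (decomp h hab hG), Fintype.sum_prod_type, Finset.sum_mul_sum]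
  apply Finset.sum_congr rfl
  intro x _
  apply Finset.sum_congr rfl
  intro y _
  rw [decomp_apply]
  have hx : (x : G) ^ a = 1 := x.2
  have hy : (y : G) ^ b = 1 := y.2
  have hc := comm_sol h hab (x : G) (y : G) hx hy
  have hco : (orderOf (x : G)).Coprime (orderOf (y : G)) :=
    Nat.Coprime.coprime_dvd_left (orderOf_dvd_of_pow_eq_one hx)
      (Nat.Coprime.coprime_dvd_right (orderOf_dvd_of_pow_eq_one hy) hab)
  rw [hc.orderOf_mul_eq_mul_orderOf_of_coprime hco, Subgroup.orderOf_coe, Subgroup.orderOf_coe]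
  push_cast
  ring

lemma card_mul {G : Type*} [Group G] [Fintype G] (h : PowerClosed G) {a b : ℕ}
    (hab : a.Coprime b) (hG : ∀ x : G, x ^ (a * b) = 1)
    [Fintype (solSub h a)] [Fintype (solSub h b)] :
    Fintype.card G = Fintype.card (solSub h a) * Fintype.card (solSub h b) := by
  rw [← Fintype.card_congr (decomp h hab hG), Fintype.card_prod]

lemma exp_sol {G : Type*} [Group G] [Finite G] (h : PowerClosed G) {a b : ℕ}
    (ha : 0 < a) (hb : 0 < b)
    (hab : a.Coprime b) (hG : Monoid.exponent G = a * b) :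
    Monoid.exponent (solSub h a) = a ∧ Monoid.exponent (solSub h b) = b := by
  have hG' : ∀ x : G, x ^ (a * b) = 1 := by
    intro x
    rw [← hG]
    exact Monoid.pow_exponent_eq_one x
  have h1 : Monoid.exponent (solSub h a) ∣ a := by
    apply Monoid.exponent_dvd_of_forall_pow_eq_one
    intro x
    apply Subtype.ext
    have : (x : G) ^ a = 1 := x.2
    simpa using this
  have h2 : Monoid.exponent (solSub h b) ∣ b := by
    apply Monoid.exponent_dvd_of_forall_pow_eq_one
    intro x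
    apply Subtype.ext
    have : (x : G) ^ b = 1 := x.2
    simpa using this
  have h3 : Monoid.exponent G ∣ Monoid.exponent (solSub h a) * Monoid.exponent (solSub h b) := by
    apply Monoid.exponent_dvd_of_forall_pow_eq_one
    intro x
    obtain ⟨z, hz⟩ := (decomp h hab hG').surjective x
    rw [decomp_apply] at hz
    have hc := comm_sol h hab (z.1 : G) (z.2 : G) z.1.2 z.2.2
    have e1 : (z.1 : G) ^ Monoid.exponent (solSub h a) = 1 := by
      have := Monoid.pow_exponent_eq_one z.1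
      have := congrArg (fun w : solSub h a => (w : G)) this
      simpa using this
    have e2 : (z.2 : G) ^ Monoid.exponent (solSub h b) = 1 := by
      have := Monoid.pow_exponent_eq_one z.2
      have := congrArg (fun w : solSub h b => (w : G)) this
      simpa using this
    rw [← hz, hc.mul_pow, pow_mul, e1, one_pow, one_mul, mul_comm, pow_mul, e2, one_pow]
  rw [hG] at h3
  obtain ⟨c, hc⟩ := h1
  obtain ⟨d, hd⟩ := h2
  have hpa : 0 < Monoid.exponent (solSub h a) := by
    rcases Nat.eq_zero_or_pos (Monoid.exponent (solSub h a)) with h0 | h0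
    · rw [h0, zero_mul] at hc; omega
    · exact h0
  have hpb : 0 < Monoid.exponent (solSub h b) := by
    rcases Nat.eq_zero_or_pos (Monoid.exponent (solSub h b)) with h0 | h0
    · rw [h0, zero_mul] at hd; omega
    · exact h0
  have h4 := Nat.le_of_dvd (Nat.mul_pos hpa hpb) h3
  have h5 : Monoid.exponent (solSub h a) ≤ a := Nat.le_of_dvd ha ⟨c, hc⟩
  have h6 : Monoid.exponent (solSub h b) ≤ b := Nat.le_of_dvd hb ⟨d, hd⟩
  constructor
  · by_contra hne
    have : Monoid.exponent (solSub h a) < a := lt_of_le_of_ne h5 hne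
    have := Nat.mul_lt_mul_of_lt_of_le this h6 hb
    omega
  · by_contra hne
    have : Monoid.exponent (solSub h b) < b := lt_of_le_of_ne h6 hne
    have := Nat.mul_lt_mul_of_le_of_lt h5 this ha
    omega


universe u

lemma main_ineq (m : ℕ) : 1 < m → ∀ (G : Type u) [Group G] [Fintype G],
    PowerClosed G → Monoid.exponent G = m →
    (Fintype.card G : ℚ) * m * ∏ p ∈ m.primeFactors, (p : ℚ) <
      (∑ x : G, (orderOf x : ℚ)) * ∏ p ∈ m.primeFactors, ((p : ℚ) + 1) := by
  induction m using Nat.recOnPosPrimePosCoprime with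
  | prime_pow p n hp hn =>
    intro _ G _ _ h he
    rw [Nat.primeFactors_prime_pow hn.ne' hp, Finset.prod_singleton, Finset.prod_singleton]
    have := main_pp hp h he
    push_cast
    exact this
  | zero => intro h0; omega
  | one => intro h0; omega
  | coprime a b ha hb hab iha ihb =>
    intro _ G _ _ h he
    have hG' : ∀ x : G, x ^ (a * b) = 1 := by
      intro x
      rw [← he]
      exact Monoid.pow_exponent_eq_one x
    have := Fintype.ofFinite (solSub h a)
    have := Fintype.ofFinite (solSub h b)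
    obtain ⟨ea, eb⟩ := exp_sol h (by omega) (by omega) hab he
    have Ia := iha ha (solSub h a) (pc_sub h _) ea
    have Ib := ihb hb (solSub h b) (pc_sub h _) eb
    rw [psi_mul h hab hG', card_mul h hab hG', hab.primeFactors_mul,
      Finset.prod_union hab.disjoint_primeFactors, Finset.prod_union hab.disjoint_primeFactors]
    have pa : (0 : ℚ) ≤ (Fintype.card (solSub h a) : ℚ) * a * ∏ p ∈ a.primeFactors, (p : ℚ) := by
      positivity
    have pb : (0 : ℚ) ≤ (Fintype.card (solSub h b) : ℚ) * b * ∏ p ∈ b.primeFactors, (p : ℚ) := by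
      positivity
    have := mul_lt_mul'' Ia Ib pa pb
    push_cast
    calc _ = ((Fintype.card (solSub h a) : ℚ) * a * ∏ p ∈ a.primeFactors, (p : ℚ)) *
          ((Fintype.card (solSub h b) : ℚ) * b * ∏ p ∈ b.primeFactors, (p : ℚ)) := by ring
      _ < _ := this
      _ = _ := by ring


lemma main_quot {G : Type u} [Group G] [Fintype G] (N : Subgroup G) [N.Normal]
    (hN : PowerClosed (G ⧸ N)) (he : Monoid.exponent (G ⧸ N) = Monoid.exponent G)
    (hm : 1 < Monoid.exponent G) :
    (Fintype.card G : ℚ) * (Monoid.exponent G : ℚ) *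
        ∏ p ∈ (Monoid.exponent G).primeFactors, (p : ℚ) <
      (∑ x : G, (orderOf x : ℚ)) * ∏ p ∈ (Monoid.exponent G).primeFactors, ((p : ℚ) + 1) := by
  classical
  have := Fintype.ofFinite (G ⧸ N)
  have hq := main_ineq (Monoid.exponent G) hm (G ⧸ N) hN he
  set m := Monoid.exponent G with hmdef
  set k := Nat.card N with hk
  have hk0 : (0 : ℚ) < k := by
    have : 0 < Nat.card N := Nat.card_pos
    exact_mod_cast this
  have hcard : (Fintype.card G : ℚ) = (Fintype.card (G ⧸ N) : ℚ) * k := by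
    have := Subgroup.card_eq_card_quotient_mul_card_subgroup N
    rw [Nat.card_eq_fintype_card (α := G), Nat.card_eq_fintype_card (α := G ⧸ N)] at this
    exact_mod_cast this
  have hfib : ∀ z : G ⧸ N, ((univ.filter fun x : G => (x : G ⧸ N) = z).card : ℚ) = k := by
    intro z
    obtain ⟨g, rfl⟩ := QuotientGroup.mk_surjective z
    have h1 : Nat.card ((QuotientGroup.mk' N) ⁻¹' {(QuotientGroup.mk' N) g}) = Nat.card N := by
      rw [Nat.card_congr ((QuotientGroup.mk' N).fiberEquivKer g), QuotientGroup.ker_mk']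
    have h2 : (univ.filter fun x : G => (x : G ⧸ N) = (g : G ⧸ N)).card =
        Nat.card ((QuotientGroup.mk' N) ⁻¹' {(QuotientGroup.mk' N) g}) := by
      rw [Nat.card_eq_fintype_card, ← Set.toFinset_card]
      congr 1
      ext x
      rw [Finset.mem_filter, Set.mem_toFinset, Set.mem_preimage, Set.mem_singleton_iff,
        QuotientGroup.mk'_apply, QuotientGroup.mk'_apply]
      exact ⟨fun h => h.2, fun h => ⟨Finset.mem_univ _, h⟩⟩
    rw [h2, h1]
  have hsum : (k : ℚ) * ∑ z : G ⧸ N, (orderOf z : ℚ) ≤ ∑ x : G, (orderOf x : ℚ) := by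
    calc (k : ℚ) * ∑ z : G ⧸ N, (orderOf z : ℚ)
        = ∑ z : G ⧸ N, ∑ x ∈ univ.filter (fun x : G => (x : G ⧸ N) = z), (orderOf z : ℚ) := by
          rw [Finset.mul_sum]
          apply Finset.sum_congr rfl
          intro z _
          rw [Finset.sum_const, nsmul_eq_mul, hfib]
      _ ≤ ∑ z : G ⧸ N, ∑ x ∈ univ.filter (fun x : G => (x : G ⧸ N) = z), (orderOf x : ℚ) := by
          apply Finset.sum_le_sum
          intro z _
          apply Finset.sum_le_sum
          intro x hx
          rw [Finset.mem_filter] at hx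
          rw [← hx.2]
          have h1 : orderOf (x : G ⧸ N) ∣ orderOf x := orderOf_map_dvd (QuotientGroup.mk' N) x
          have h2 := Nat.le_of_dvd (orderOf_pos x) h1
          exact_mod_cast h2
      _ = ∑ x : G, (orderOf x : ℚ) := by
          exact Finset.sum_fiberwise (s := univ) (fun x : G => (x : G ⧸ N)) (fun x => (orderOf x : ℚ))
  have hPpos : (0 : ℚ) < ∏ p ∈ m.primeFactors, ((p : ℚ) + 1) := by
    apply Finset.prod_pos
    intro p _
    positivity
  calc (Fintype.card G : ℚ) * m * ∏ p ∈ m.primeFactors, (p : ℚ)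
      = k * ((Fintype.card (G ⧸ N) : ℚ) * m * ∏ p ∈ m.primeFactors, (p : ℚ)) := by
        rw [hcard]
        ring
    _ < k * ((∑ z : G ⧸ N, (orderOf z : ℚ)) * ∏ p ∈ m.primeFactors, ((p : ℚ) + 1)) :=
        mul_lt_mul_of_pos_left hq hk0
    _ = (k * ∑ z : G ⧸ N, (orderOf z : ℚ)) * ∏ p ∈ m.primeFactors, ((p : ℚ) + 1) := by ring
    _ ≤ _ := mul_le_mul_of_nonneg_right hsum hPpos.le


end Pool.Agent.LibAO61
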