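import Pool.Agent.LibAO61.Big
import Pool.Agent.LibAO61.PC

/-!
# Elements of average order

If a nontrivial finite group `G` with a power-closed quotient of the same exponent (for instance a
finite abelian group) contains an element of average order, then its order is odd and has at least
`16` distinct prime divisors.
-/

set_option autoImplicit false

open Finset

namespace Pool.Agent.LibAO61

variable {G : Type*} [Group G] [Finite G]

/-! ### The order is odd -/

omit [Finite G] in
theorem odd_sum [Fintype G] : Odd (∑ x : G, orderOf x) := by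
  classical
  have h1 : ∑ x ∈ (univ : Finset G).erase 1, ((orderOf x : ℕ) : ZMod 2) = 0 := by
    refine Finset.sum_involution (fun x _ => x⁻¹) ?_ ?_ ?_ ?_
    · intro x _
      rw [orderOf_inv]
      exact CharTwo.add_self_eq_zero _
    · intro x hx hne h
      have h2 : x ^ 2 = 1 := by
        rw [pow_two]
        nth_rewrite 1 [← h]
        exact inv_mul_cancel x
      have h3 : orderOf x = 2 :=
        orderOf_eq_prime h2 (Finset.mem_erase.1 hx).1
      rw [h3] at hne
      exact hne (by decide)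
    · intro x hx
      simpa using hx
    · intro x _
      exact inv_inv x
  have h2 : ((∑ x : G, orderOf x : ℕ) : ZMod 2) = 1 := by
    rw [Nat.cast_sum, ← Finset.add_sum_erase univ _ (mem_univ (1 : G)), h1, orderOf_one]
    simp
  exact (ZMod.natCast_eq_one_iff_odd).1 h2

/-! ### Products over sets of odd primes -/

/-- The first `15` odd primes. -/
def L15 : Finset ℕ := {3, 5, 7, 11, 13, 17, 19, 23, 29, 31, 37, 41, 43, 47, 53}

theorem ge_of_notMem {p : ℕ} (hp : p.Prime) (h2 : p ≠ 2) (h : p ∉ L15) : 59 ≤ p := by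
  by_contra hlt
  have hlt' : p < 59 := not_le.1 hlt
  unfold L15 at h
  interval_cases p <;> first | exact h2 rfl | exact h (by decide) | exact absurd hp (by norm_num)

theorem prod_lt {S : Finset ℕ} (hS : ∀ p ∈ S, p.Prime ∧ p ≠ 2) (hc : S.card ≤ 15) :
    ∏ p ∈ S, (p + 1) < 3 * ∏ p ∈ S, p := by
  classical
  have hpos : ∀ p ∈ S, (0 : ℚ) < p := fun p hp => by exact_mod_cast (hS p hp).1.pos
  have key : ∏ p ∈ S, (((p : ℚ) + 1) / p) < 3 := by
    have e1 : ∏ p ∈ S, (((p : ℚ) + 1) / p) =
        (∏ p ∈ S ∩ L15, (((p : ℚ) + 1) / p)) * ∏ p ∈ S \ L15, (((p : ℚ) + 1) / p) :=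
      (Finset.prod_inter_mul_prod_sdiff S L15 _).symm
    have e2 : ∏ p ∈ L15, (((p : ℚ) + 1) / p) =
        (∏ p ∈ S ∩ L15, (((p : ℚ) + 1) / p)) * ∏ p ∈ L15 \ S, (((p : ℚ) + 1) / p) := by
      rw [← Finset.prod_inter_mul_prod_sdiff L15 S, Finset.inter_comm]
    have a1 : ∏ p ∈ S \ L15, (((p : ℚ) + 1) / p) ≤ (60 / 59 : ℚ) ^ (S \ L15).card := by
      rw [← Finset.prod_const]
      refine Finset.prod_le_prod (fun p hp => ?_) fun p hp => ?_
      · positivity
      · rw [Finset.mem_sdiff] at hp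
        have h59 : (59 : ℚ) ≤ p := by
          exact_mod_cast ge_of_notMem (hS p hp.1).1 (hS p hp.1).2 hp.2
        rw [div_le_div_iff₀ (by linarith) (by norm_num)]
        linarith
    have a2 : (60 / 59 : ℚ) ^ (S \ L15).card ≤ (60 / 59 : ℚ) ^ (L15 \ S).card := by
      refine pow_le_pow_right₀ (by norm_num) ?_
      rw [Finset.card_sdiff_le_card_sdiff_iff]
      exact hc.trans (by decide)
    have a3 : (60 / 59 : ℚ) ^ (L15 \ S).card ≤ ∏ p ∈ L15 \ S, (((p : ℚ) + 1) / p) := by
      rw [← Finset.prod_const]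
      refine Finset.prod_le_prod (fun p hp => by norm_num) fun p hp => ?_
      have hp' : p ∈ L15 := (Finset.mem_sdiff.1 hp).1
      have hb : 3 ≤ p ∧ p ≤ 53 := by
        have : ∀ q ∈ L15, 3 ≤ q ∧ q ≤ 53 := by decide
        exact this p hp'
      have hb1 : (3 : ℚ) ≤ p := by exact_mod_cast hb.1
      have hb2 : (p : ℚ) ≤ 53 := by exact_mod_cast hb.2
      rw [div_le_div_iff₀ (by norm_num) (by linarith)]
      linarith
    have hL : ∏ p ∈ L15, (((p : ℚ) + 1) / p) < 3 := by
      unfold L15
      norm_num [Finset.prod_insert]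
    refine lt_of_le_of_lt ?_ hL
    rw [e1, e2]
    refine mul_le_mul_of_nonneg_left (a1.trans (a2.trans a3)) ?_
    exact Finset.prod_nonneg fun p _ => by positivity
  rw [Finset.prod_div_distrib, div_lt_iff₀ (Finset.prod_pos hpos)] at key
  have key' : ((∏ p ∈ S, (p + 1) : ℕ) : ℚ) < ((3 * ∏ p ∈ S, p : ℕ) : ℚ) := by
    push_cast
    exact key
  exact Nat.cast_lt.1 key'

/-- The first `16` odd primes. -/
def L16 : Finset ℕ := {3, 5, 7, 11, 13, 17, 19, 23, 29, 31, 37, 41, 43, 47, 53, 59}

theorem le_prod {S : Finset ℕ} (hS : ∀ p ∈ S, p.Prime ∧ p ≠ 2) (hc : 16 ≤ S.card) :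
    961380175077106319535 ≤ ∏ p ∈ S, p := by
  classical
  have hge : ∀ p ∈ S \ L16, 61 ≤ p := by
    intro p hp
    rw [Finset.mem_sdiff] at hp
    have hp15 : p ∉ L15 := fun h => hp.2 (by
      have : L15 ⊆ L16 := by decide
      exact this h)
    have h59 := ge_of_notMem (hS p hp.1).1 (hS p hp.1).2 hp15
    have hne : p ≠ 59 := fun h => hp.2 (by rw [h]; decide)
    have hne' : p ≠ 60 := fun h => by
      have := (hS p hp.1).1
      rw [h] at this
      exact absurd this (by norm_num)
    omega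
  have e1 : ∏ p ∈ S, p = (∏ p ∈ S ∩ L16, p) * ∏ p ∈ S \ L16, p :=
    (Finset.prod_inter_mul_prod_sdiff S L16 _).symm
  have e2 : ∏ p ∈ L16, p = (∏ p ∈ S ∩ L16, p) * ∏ p ∈ L16 \ S, p := by
    rw [← Finset.prod_inter_mul_prod_sdiff L16 S, Finset.inter_comm]
  have a1 : 61 ^ (S \ L16).card ≤ ∏ p ∈ S \ L16, p := by
    rw [← Finset.prod_const]
    exact Finset.prod_le_prod' hge
  have a2 : 61 ^ (L16 \ S).card ≤ 61 ^ (S \ L16).card := by
    refine Nat.pow_le_pow_right (by norm_num) ?_
    rw [Finset.card_sdiff_le_card_sdiff_iff]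
    exact le_trans (by decide) hc
  have a3 : ∏ p ∈ L16 \ S, p ≤ 61 ^ (L16 \ S).card := by
    rw [← Finset.prod_const]
    refine Finset.prod_le_prod' fun p hp => ?_
    have : ∀ q ∈ L16, q ≤ 61 := by decide
    exact this p (Finset.mem_sdiff.1 hp).1
  calc 961380175077106319535 = ∏ p ∈ L16, p := by decide
    _ ≤ ∏ p ∈ S, p := by
      rw [e1, e2]
      exact Nat.mul_le_mul_left _ (a3.trans (a2.trans a1))

/-! ### The theorem -/

theorem primeFactors_exponent [Fintype G] :
    (Monoid.exponent G).primeFactors = (Fintype.card G).primeFactors := by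
  classical
  have hN : Monoid.exponent G ≠ 0 := Monoid.exponent_ne_zero_of_finite
  have hdvd : Monoid.exponent G ∣ Fintype.card G := Group.exponent_dvd_card
  ext p
  rw [Nat.mem_primeFactors, Nat.mem_primeFactors]
  constructor
  · rintro ⟨hp, h, _⟩
    exact ⟨hp, h.trans hdvd, Fintype.card_ne_zero⟩
  · rintro ⟨hp, h, _⟩
    have : Fact p.Prime := ⟨hp⟩
    obtain ⟨g, hg⟩ := exists_prime_orderOf_dvd_card p h
    exact ⟨hp, hg ▸ Monoid.order_dvd_exponent g, hN⟩

omit [Finite G] in
theorem sum_of_avg [Fintype G] {x : G} (hx : (orderOf x : ℚ) = avgOrder G) :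
    ∑ y : G, orderOf y = orderOf x * Fintype.card G := by
  have hcard : 0 < Fintype.card G := Fintype.card_pos
  rw [avgOrder, eq_div_iff (by exact_mod_cast hcard.ne')] at hx
  have h := hx.symm
  exact_mod_cast h

theorem one_lt_exponent [Nontrivial G] : 1 < Monoid.exponent G := by
  have hN0 : Monoid.exponent G ≠ 0 := Monoid.exponent_ne_zero_of_finite
  rcases Nat.lt_or_ge 1 (Monoid.exponent G) with h | h
  · exact h
  · exfalso
    obtain ⟨y, hy⟩ := exists_ne (1 : G)
    have h3 : Monoid.exponent G = 1 := le_antisymm h (Nat.one_le_iff_ne_zero.2 hN0)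
    have h4 : y ^ Monoid.exponent G = 1 := Monoid.pow_exponent_eq_one y
    rw [h3, pow_one] at h4
    exact absurd h4 hy

/-- The inequality for the groups with a power-closed quotient of the same exponent. -/
theorem ineq_quot [Fintype G] [Nontrivial G] (N : Subgroup G) [N.Normal]
    (hN : PowerClosed (G ⧸ N)) (he : Monoid.exponent (G ⧸ N) = Monoid.exponent G)
    (x : G) (hx : (orderOf x : ℚ) = avgOrder G) :
    Monoid.exponent G * ∏ p ∈ (Monoid.exponent G).primeFactors, p ≤
      orderOf x * ∏ p ∈ (Monoid.exponent G).primeFactors, (p + 1) := by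
  have hcard : (0 : ℚ) < Fintype.card G := by exact_mod_cast Fintype.card_pos
  have h1 := main_quot N hN he one_lt_exponent
  have h2 : (∑ y : G, (orderOf y : ℚ)) = orderOf x * Fintype.card G := by
    rw [avgOrder, eq_div_iff hcard.ne'] at hx
    exact hx.symm
  rw [h2] at h1
  have h3 : (Fintype.card G : ℚ) *
      (Monoid.exponent G * ∏ p ∈ (Monoid.exponent G).primeFactors, (p : ℚ)) <
      (Fintype.card G : ℚ) *
      (orderOf x * ∏ p ∈ (Monoid.exponent G).primeFactors, ((p : ℚ) + 1)) := by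
    calc _ = (Fintype.card G : ℚ) * Monoid.exponent G *
          ∏ p ∈ (Monoid.exponent G).primeFactors, (p : ℚ) := by ring
      _ < _ := h1
      _ = _ := by ring
  have h4 := lt_of_mul_lt_mul_left h3 hcard.le
  have h5 : ((Monoid.exponent G * ∏ p ∈ (Monoid.exponent G).primeFactors, p : ℕ) : ℚ) <
      ((orderOf x * ∏ p ∈ (Monoid.exponent G).primeFactors, (p + 1) : ℕ) : ℚ) := by
    push_cast
    exact h4
  exact (Nat.cast_lt.1 h5).le

theorem main [Fintype G] [Nontrivial G] (K : Subgroup G) [K.Normal]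
    (hK : PowerClosed (G ⧸ K)) (hexp : Monoid.exponent (G ⧸ K) = Monoid.exponent G)
    (x : G) (hx : (orderOf x : ℚ) = avgOrder G) :
    Odd (Fintype.card G) ∧ (Fintype.card G).minFac * ∏ p ∈ (Fintype.card G).primeFactors, p ≤
      ∏ p ∈ (Fintype.card G).primeFactors, (p + 1) := by
  classical
  have hsum := sum_of_avg hx
  have hodd : Odd (orderOf x * Fintype.card G) := hsum ▸ odd_sum
  have hodd' : Odd (Fintype.card G) := (Nat.odd_mul.1 hodd).2
  refine ⟨hodd', ?_⟩
  have hineq : Monoid.exponent G * ∏ p ∈ (Monoid.exponent G).primeFactors, p ≤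
      orderOf x * ∏ p ∈ (Monoid.exponent G).primeFactors, (p + 1) :=
    ineq_quot K hK hexp x hx
  rw [primeFactors_exponent] at hineq
  set N := Monoid.exponent G with hNdef
  have hN0 : N ≠ 0 := Monoid.exponent_ne_zero_of_finite
  obtain ⟨m, hm⟩ : orderOf x ∣ N := Monoid.order_dvd_exponent x
  have hm1 : m ≠ 1 := by
    rintro rfl
    rw [mul_one] at hm
    have h5 : ∑ y : G, orderOf y < ∑ _y : G, N := by
      refine Finset.sum_lt_sum (fun y _ => Nat.le_of_dvd (Nat.pos_of_ne_zero hN0)
        (Monoid.order_dvd_exponent y)) ⟨1, mem_univ _, ?_⟩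
      rw [orderOf_one]
      exact one_lt_exponent
    rw [hsum, ← hm, Finset.sum_const, Finset.card_univ, smul_eq_mul, mul_comm] at h5
    exact lt_irrefl _ h5
  have hmin : (Fintype.card G).minFac ≤ m := by
    have h6 : m.minFac ∣ Fintype.card G :=
      ((m.minFac_dvd.trans ⟨orderOf x, by rw [hm, mul_comm]⟩ : m.minFac ∣ N)).trans
        Group.exponent_dvd_card
    have hm0 : m ≠ 0 := by
      rintro rfl
      exact hN0 (by rw [hm, mul_zero])
    exact (Nat.minFac_le_of_dvd (Nat.minFac_prime hm1).two_le h6).trans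
      (Nat.minFac_le (Nat.pos_of_ne_zero hm0))
  set P := ∏ p ∈ (Fintype.card G).primeFactors, p
  set Q := ∏ p ∈ (Fintype.card G).primeFactors, (p + 1)
  have h8 : m * P ≤ Q := by
    refine Nat.le_of_mul_le_mul_left ?_ (orderOf_pos x)
    calc orderOf x * (m * P) = N * P := by rw [hm]; ring
      _ ≤ orderOf x * Q := hineq
  exact (Nat.mul_le_mul_right _ hmin).trans h8

theorem final [Fintype G] [Nontrivial G] (K : Subgroup G) [K.Normal]
    (hK : PowerClosed (G ⧸ K)) (hexp : Monoid.exponent (G ⧸ K) = Monoid.exponent G)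
    (x : G) (hx : (orderOf x : ℚ) = avgOrder G) :
    Odd (Fintype.card G) ∧ 16 ≤ (Fintype.card G).primeFactors.card ∧
      961380175077106319535 ≤ Fintype.card G ∧
      (¬ 3 ∣ Fintype.card G → 1243 ≤ (Fintype.card G).primeFactors.card) ∧
      (Fintype.card G).minFac * ∏ p ∈ (Fintype.card G).primeFactors, p ≤
        ∏ p ∈ (Fintype.card G).primeFactors, (p + 1) := by
  obtain ⟨hodd, hprod⟩ := main K hK hexp x hx
  have hne : Fintype.card G ≠ 1 := Fintype.one_lt_card.ne'
  have hmem : (Fintype.card G).minFac ∈ (Fintype.card G).primeFactors :=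
    Nat.mem_primeFactors.2 ⟨Nat.minFac_prime hne, Nat.minFac_dvd _, Fintype.card_ne_zero⟩
  have hS : ∀ p ∈ (Fintype.card G).primeFactors, p.Prime ∧ p ≠ 2 := by
    intro p hp
    refine ⟨Nat.prime_of_mem_primeFactors hp, ?_⟩
    rintro rfl
    exact (Nat.not_even_iff_odd.2 hodd) (even_iff_two_dvd.2 (Nat.dvd_of_mem_primeFactors hp))
  have h3 : 3 ≤ (Fintype.card G).minFac := by
    have h5 := hS _ hmem
    have h6 := h5.1.two_le
    have h7 := h5.2
    omega
  have h16 : 16 ≤ (Fintype.card G).primeFactors.card := by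
    by_contra hlt
    have h8 := prod_lt hS (by omega)
    have h9 := (Nat.mul_le_mul_right (∏ p ∈ (Fintype.card G).primeFactors, p) h3).trans hprod
    exact absurd h8 (not_lt.2 h9)
  refine ⟨hodd, h16, ?_, ?_, hprod⟩
  · exact (le_prod hS h16).trans
      (Nat.le_of_dvd Fintype.card_pos (Nat.prod_primeFactors_dvd _))
  · intro hn3
    have hS5 : ∀ p ∈ (Fintype.card G).primeFactors, p.Prime ∧ 5 ≤ p := by
      intro p hp
      obtain ⟨h1, h2⟩ := hS p hp
      refine ⟨h1, ?_⟩
      have h4 := h1.two_le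
      have h5 : p ≠ 3 := by
        rintro rfl
        exact hn3 (Nat.dvd_of_mem_primeFactors hp)
      have h6 : p ≠ 4 := by
        rintro rfl
        exact absurd h1 (by norm_num)
      omega
    by_contra hlt
    have h8 := prod_lt_big hS5 (by omega)
    have h9 := (Nat.mul_le_mul_right (∏ p ∈ (Fintype.card G).primeFactors, p)
      (hS5 _ hmem).2).trans hprod
    exact absurd h8 (not_lt.2 h9)

end Pool.Agent.LibAO61
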